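import Pool.Agent.Helper71.UQ.Goals2

set_option autoImplicit false

namespace Pool.Agent.Helper12.UQ.PkNEG

open Pool.Agent.Helper71.UQ Pool.Agent.Helper39.Net

theorem exists_x (M : ℝ) (hM : 1 ≤ M) :
    ∃ x : ℝ, 2 ≤ x ∧ 1 ≤ ll x ∧ 0 ≤ ll (ll x) / ll x ∧ M * (ll (ll x) / ll x) ≤ 1 / 4 := by
  refine ⟨Real.exp (256 * M ^ 2), ?_, ?_, ?_, ?_⟩
  · have h1 : (256 * M ^ 2) + 1 ≤ Real.exp (256 * M ^ 2) := Real.add_one_le_exp _
    nlinarith [sq_nonneg M, mul_self_nonneg (M - 1)]
  all_goals
    have hy : 256 * M ^ 2 ≤ ll (Real.exp (256 * M ^ 2)) := by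
      unfold ll
      calc 256 * M ^ 2 = Real.log (Real.exp (256 * M ^ 2)) := (Real.log_exp _).symm
        _ ≤ Real.log (Real.exp 1 + Real.exp (256 * M ^ 2)) := by
            apply Real.log_le_log (Real.exp_pos _)
            have := Real.exp_pos 1
            linarith
    have hM2 : 1 ≤ M ^ 2 := by nlinarith
    generalize ll (Real.exp (256 * M ^ 2)) = y at hy
    have hy1 : 1 ≤ y := by nlinarith
  · exact hy1
  · apply div_nonneg _ (by linarith)
    unfold ll
    apply Real.log_nonneg
    have := Real.add_one_le_exp (1 : ℝ)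
    linarith
  · have hs : 0 < Real.sqrt y := Real.sqrt_pos.mpr (by linarith)
    have hsM : 16 * M ≤ Real.sqrt y := by
      apply Real.le_sqrt_of_sq_le
      nlinarith
    have hll : ll y ≤ 4 * Real.sqrt y := by
      unfold ll
      have he : Real.exp 1 < 3 := lt_trans Real.exp_one_lt_d9 (by norm_num)
      have hpos : 0 < Real.exp 1 + y := by have := Real.exp_pos 1; linarith
      have h1 : Real.log (Real.exp 1 + y) ≤ Real.log ((2 * Real.sqrt y) ^ 2) := by
        apply Real.log_le_log hpos
        rw [mul_pow, Real.sq_sqrt (by linarith)]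
        linarith
      rw [Real.log_pow] at h1
      have h2 : Real.log (2 * Real.sqrt y) ≤ 2 * Real.sqrt y - 1 :=
        Real.log_le_sub_one_of_pos (by positivity)
      push_cast at h1
      linarith
    have hyy : y = Real.sqrt y * Real.sqrt y := (Real.mul_self_sqrt (by linarith)).symm
    rw [← mul_div_assoc, div_le_iff₀ (by linarith)]
    calc M * ll y ≤ M * (4 * Real.sqrt y) := by
          apply mul_le_mul_of_nonneg_left hll (by linarith)
      _ = (16 * M) * Real.sqrt y / 4 := by ring
      _ ≤ Real.sqrt y * Real.sqrt y / 4 := by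
          apply div_le_div_of_nonneg_right _ (by norm_num)
          apply mul_le_mul_of_nonneg_right hsM hs.le
      _ = 1 / 4 * y := by rw [← hyy]; ring

theorem exists_c (x : ℝ) (hx : 2 ≤ x) : ∃ c : ℝ, 1 < c ∧ G c = x := by
  have h1 : 1 < Real.exp (x - 1) := by
    have := Real.add_one_le_exp (x - 1)
    linarith
  refine ⟨1 + 1 / (Real.exp (x - 1) - 1), ?_, ?_⟩
  · have : 0 < 1 / (Real.exp (x - 1) - 1) := by
      apply div_pos one_pos; linarith
    linarith
  · unfold G
    have h2 : Real.exp (x - 1) - 1 ≠ 0 := by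
      intro h; linarith
    have h3 : (1 : ℝ) + 1 / (1 + 1 / (Real.exp (x - 1) - 1) - 1) = Real.exp (x - 1) := by
      rw [add_sub_cancel_left, one_div_one_div]
      ring
    rw [h3, Real.log_exp]
    ring

theorem thm : G_NEG := by
  intro A B k hA hB
  have hM : 1 ≤ A * B := by nlinarith
  obtain ⟨x, hx, hl, hq0, hq⟩ := exists_x (A * B) hM
  obtain ⟨c, hc, hG⟩ := exists_c x hx
  obtain ⟨n, hn⟩ := pow_unbounded_of_one_lt ((A * B) * x ^ (k + 2) * ll x) (by norm_num : (1 : ℝ) < 4)
  have hx0 : 0 < x := by linarith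
  have hl0 : 0 < ll x := by linarith
  refine ⟨c, n + k + 3, hc, by omega, by omega, ?_, ?_⟩
  all_goals rw [hG]; unfold bd
  all_goals
    set q := ll (ll x) / ll x with hqdef
    have hxq : x * ll (ll x) / ll x = x * q := by rw [hqdef, mul_div_assoc]
    rw [hxq]
    have hp0 : 0 ≤ A * B * (x * q) := by positivity
    have hp1 : A * B * (x * q) ≤ x / 4 := by
      calc A * B * (x * q) = x * (A * B * q) := by ring
        _ ≤ x * (1 / 4) := mul_le_mul_of_nonneg_left hq hx0.le
        _ = x / 4 := by ring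
    have h4n : (4 : ℝ) ^ n ≤ 4 ^ (n + k + 2) := pow_le_pow_right₀ (by norm_num) (by omega)
    have h4n' : (4 : ℝ) ^ n ≤ 4 ^ (n + k + 3) := pow_le_pow_right₀ (by norm_num) (by omega)
    have hsub : n + k + 3 - k = n + 3 := by omega
    rw [hsub]
  · have e1 : B ^ (n + k + 3) * (A ^ (n + k + 3) * (x ^ 2 * ll x * (x * q) ^ (n + k + 3)))
        = x ^ 2 * ll x * (A * B * (x * q)) ^ (n + k + 3) := by
      rw [mul_pow (A * B), mul_pow A B]; ring
    rw [e1]
    have h2 : (A * B * (x * q)) ^ (n + k + 3) ≤ (x / 4) ^ (n + k + 3) :=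
      pow_le_pow_left₀ hp0 hp1 _
    calc x ^ 2 * ll x * (A * B * (x * q)) ^ (n + k + 3)
        ≤ x ^ 2 * ll x * (x / 4) ^ (n + k + 3) :=
          mul_le_mul_of_nonneg_left h2 (by positivity)
      _ = (x ^ (k + 2) * ll x) * x ^ (n + 3) / 4 ^ (n + k + 3) := by
          rw [div_pow]
          have : x ^ (n + k + 3) = x ^ k * x ^ (n + 3) := by rw [← pow_add]; congr 1; omega
          rw [this]; ring
      _ < x ^ (n + 3) := by
          rw [div_lt_iff₀ (by positivity)]
          have h3 : x ^ (k + 2) * ll x < 4 ^ (n + k + 3) := by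
            have h5 : x ^ (k + 2) * ll x ≤ A * B * x ^ (k + 2) * ll x := by
              have : 0 ≤ x ^ (k + 2) * ll x := by positivity
              nlinarith
            linarith
          have : 0 < x ^ (n + 3) := by positivity
          nlinarith
  · have hd : n + k + 3 - 1 = n + k + 2 := by omega
    rw [hd]
    have e1 : B ^ (n + k + 3) * (A ^ (n + k + 3) * (x ^ 2 * ll x * (x * q) ^ (n + k + 2)))
        = A * B * (x ^ 2 * ll x) * (A * B * (x * q)) ^ (n + k + 2) := by
      have hAB : A ^ (n + k + 3) = A ^ (n + k + 2) * A := pow_succ _ _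
      have hBB : B ^ (n + k + 3) = B ^ (n + k + 2) * B := pow_succ _ _
      rw [hAB, hBB, mul_pow (A * B), mul_pow A B]; ring
    rw [e1]
    have h2 : (A * B * (x * q)) ^ (n + k + 2) ≤ (x / 4) ^ (n + k + 2) :=
      pow_le_pow_left₀ hp0 hp1 _
    calc A * B * (x ^ 2 * ll x) * (A * B * (x * q)) ^ (n + k + 2)
        ≤ A * B * (x ^ 2 * ll x) * (x / 4) ^ (n + k + 2) :=
          mul_le_mul_of_nonneg_left h2 (by positivity)
      _ = (A * B * x ^ (k + 1) * ll x) * x ^ (n + 3) / 4 ^ (n + k + 2) := by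
          rw [div_pow]
          have : x ^ 2 * x ^ (n + k + 2) = x ^ (k + 1) * x ^ (n + 3) := by
            rw [← pow_add, ← pow_add]; congr 1; omega
          calc A * B * (x ^ 2 * ll x) * (x ^ (n + k + 2) / 4 ^ (n + k + 2))
              = A * B * ll x * (x ^ 2 * x ^ (n + k + 2)) / 4 ^ (n + k + 2) := by ring
            _ = _ := by rw [this]; ring
      _ < x ^ (n + 3) := by
          rw [div_lt_iff₀ (by positivity)]
          have h3 : A * B * x ^ (k + 1) * ll x < 4 ^ (n + k + 2) := by
            have h5 : A * B * x ^ (k + 1) * ll x ≤ A * B * x ^ (k + 2) * ll x := by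
              have h6 : x ^ (k + 1) ≤ x ^ (k + 2) := pow_le_pow_right₀ (by linarith) (by omega)
              have h7 : A * B * x ^ (k + 1) ≤ A * B * x ^ (k + 2) :=
                mul_le_mul_of_nonneg_left h6 (by linarith)
              exact mul_le_mul_of_nonneg_right h7 hl0.le
            linarith
          have : 0 < x ^ (n + 3) := by positivity
          nlinarith

end Pool.Agent.Helper12.UQ.PkNEG
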